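import Mathlib

set_option autoImplicit false

namespace Pool.Agent.ModAut

/-- coloured requirement systems -/
structure Sys (J I : Type) where
  κ : J → I
  dn : J → Set J
  self : ∀ x, x ∈ dn x
  trans : ∀ x y z, y ∈ dn x → z ∈ dn y → z ∈ dn x
  one : ∀ x y z, y ∈ dn x → z ∈ dn x → κ y = κ z → y = z
  anti : ∀ x y, y ∈ dn x → x ∈ dn y → x = y
  par : ∀ x x' z y, κ x = κ z → κ x' = κ z → x ≠ x' → y ∈ dn z →
    y ∈ dn x ∨ ∃ y' ∈ dn x, ∃ y'' ∈ dn x', y' ≠ y'' ∧ κ y' = κ y ∧ κ y'' = κ y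

namespace Sys
variable {J I : Type} (D : Sys J I)

/-- closed sets -/
def Closed (S : Set J) : Prop := (∀ x ∈ S, ∀ y ∈ D.dn x, y ∈ S) ∧
  ∀ x ∈ S, ∀ y ∈ S, x ≠ y → ∀ z, D.κ x = D.κ z → D.κ y = D.κ z → z ∈ S

/-- the lattice of closed sets -/
def L : Type := {S : Set J // D.Closed S}

/-- one step closure -/
def cl (U : Set J) : Set J :=
  {z | z ∈ U ∨ ∃ x ∈ U, ∃ y ∈ U, x ≠ y ∧ D.κ x = D.κ z ∧ D.κ y = D.κ z}

lemma cl_closed (U : Set J) (hU : ∀ x ∈ U, ∀ y ∈ D.dn x, y ∈ U) : D.Closed (D.cl U) := by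
  constructor
  · rintro z (hz | ⟨x, hx, x', hx', h1, h2, h3⟩) y hy
    · exact Or.inl (hU z hz y hy)
    · rcases D.par x x' z y h2 h3 h1 hy with h | ⟨y', h4, y'', h5, h6⟩
      · exact Or.inl (hU x hx y h)
      · exact Or.inr ⟨y', hU x hx _ h4, y'', hU x' hx' _ h5, h6⟩
  · rintro x (hx | ⟨a, ha, b, hb, h1, h2, h3⟩) y hy hxy z h4 h5
    · rcases hy with hy | ⟨a, ha, b, hb, h1, h2, h3⟩
      · exact Or.inr ⟨x, hx, y, hy, hxy, h4, h5⟩
      · exact Or.inr ⟨a, ha, b, hb, h1, h2.trans h5, h3.trans h5⟩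
    · exact Or.inr ⟨a, ha, b, hb, h1, h2.trans h4, h3.trans h4⟩

instance : Lattice D.L where
  __ := Subtype.partialOrder D.Closed
  sup S T := ⟨D.cl (S.1 ∪ T.1), D.cl_closed _ (by
    rintro x (hx | hx) y hy
    · exact Or.inl (S.2.1 x hx y hy)
    · exact Or.inr (T.2.1 x hx y hy))⟩
  inf S T := ⟨S.1 ∩ T.1, fun x hx y hy => ⟨S.2.1 x hx.1 y hy, T.2.1 x hx.2 y hy⟩,
    fun x hx y hy h z h1 h2 => ⟨S.2.2 x hx.1 y hy.1 h z h1 h2, T.2.2 x hx.2 y hy.2 h z h1 h2⟩⟩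
  le_sup_left _ _ _ hx := Or.inl (Or.inl hx)
  le_sup_right _ _ _ hx := Or.inl (Or.inr hx)
  sup_le S T U h1 h2 := by
    have h : S.1 ∪ T.1 ⊆ U.1 := Set.union_subset h1 h2
    rintro z (hz | ⟨x, hx, y, hy, h3, h4, h5⟩)
    · exact h hz
    · exact U.2.2 x (h hx) y (h hy) h3 z h4 h5
  inf_le_left _ _ := Set.inter_subset_left
  inf_le_right _ _ := Set.inter_subset_right
  le_inf _ _ _ h1 h2 := Set.subset_inter h1 h2

lemma le_def (S T : D.L) : S ≤ T ↔ S.1 ⊆ T.1 := Iff.rfl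

instance : IsModularLattice D.L where
  sup_inf_le_assoc_of_le := by
    intro a b c hac p hp
    have hac' : a.1 ⊆ c.1 := hac
    obtain ⟨h1, h2⟩ : p ∈ D.cl (a.1 ∪ b.1) ∧ p ∈ c.1 := hp
    change p ∈ D.cl (a.1 ∪ b.1 ∩ c.1)
    by_cases ha : p ∈ a.1
    · exact Or.inl (Or.inl ha)
    by_cases hb : p ∈ b.1
    · exact Or.inl (Or.inr ⟨hb, h2⟩)
    rcases h1 with (h | h) | ⟨x, hx | hx, y, hy | hy, h3, h4, h5⟩
    · exact absurd h ha
    · exact absurd h hb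
    · exact absurd (a.2.2 x hx y hy h3 p h4 h5) ha
    · exact Or.inr ⟨x, Or.inl hx, y, Or.inr ⟨hy, c.2.2 x (hac' hx) p h2
        (fun e => ha (e ▸ hx)) y (h4.trans h5.symm) h5.symm⟩, h3, h4, h5⟩
    · exact Or.inr ⟨x, Or.inr ⟨hx, c.2.2 y (hac' hy) p h2
        (fun e => ha (e ▸ hy)) x (h5.trans h4.symm) h4.symm⟩, y, Or.inl hy, h3, h4, h5⟩
    · exact absurd (b.2.2 x hx y hy h3 p h4 h5) hb

instance [Finite J] : Finite D.L := by unfold L; infer_instance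

/-- principal closed sets -/
def pr (p : J) : D.L := ⟨D.dn p, fun x hx y hy => D.trans p x y hx hy,
  fun x hx y hy h _ h1 h2 => absurd (D.one p x y hx hy (h1.trans h2.symm)) h⟩

instance : Nonempty D.L := ⟨⟨∅, by simp, by simp⟩⟩

lemma pr_le (p : J) (S : D.L) : D.pr p ≤ S ↔ p ∈ S.1 :=
  ⟨fun h => h (D.self p), fun h y hy => S.2.1 p h y hy⟩

lemma pr_inj : Function.Injective D.pr := fun p q h =>
  D.anti p q ((D.pr_le q (D.pr p)).1 h.ge) ((D.pr_le p (D.pr q)).1 h.le)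

lemma irr_iff (S : D.L) : (∃ T, T < S ∧ ∀ U, U < S → U ≤ T) ↔ ∃ p, S = D.pr p := by
  constructor
  · rintro ⟨T, h1, h2⟩
    obtain ⟨p, hp, hpT⟩ : ∃ p ∈ S.1, p ∉ T.1 := Set.not_subset.1 h1.not_ge
    refine ⟨p, ?_⟩
    by_contra h
    exact hpT ((D.pr_le p T).1 (h2 _ (lt_of_le_of_ne ((D.pr_le p S).2 hp) (Ne.symm h))))
  · rintro ⟨p, rfl⟩
    refine ⟨⟨D.dn p \ {p}, fun x hx y hy => ⟨D.trans p x y hx.1 hy, fun e => hx.2 ?_⟩,
      fun x hx y hy h _ h1 h2 => absurd (D.one p x y hx.1 hy.1 (h1.trans h2.symm)) h⟩, ?_, ?_⟩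
    · have e' : y = p := e
      exact (D.anti p x hx.1 (e' ▸ hy)).symm
    · exact lt_of_le_of_ne (fun x hx => hx.1) (fun e => by
        have : p ∈ D.dn p \ {p} := (congrArg Subtype.val e).ge (D.self p)
        exact this.2 rfl)
    · intro U hU x hx
      refine ⟨hU.le hx, fun e => hU.not_ge ((D.pr_le p U).2 ?_)⟩
      have e' : x = p := e
      exact e' ▸ hx

lemma ex_fun (α : D.L ≃o D.L) (p : J) : ∃ q, α (D.pr p) = D.pr q := by
  rw [← D.irr_iff]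
  obtain ⟨T, h1, h2⟩ := (D.irr_iff _).2 ⟨p, rfl⟩
  refine ⟨α T, α.strictMono h1, fun U hU => ?_⟩
  rw [← α.symm_apply_le]
  exact h2 _ (by rwa [α.symm_apply_lt])

lemma ex_perm (α : D.L ≃o D.L) : ∃ π : J → J, Function.Injective π ∧ Function.Surjective π ∧
    (∀ p q, π q ∈ D.dn (π p) ↔ q ∈ D.dn p) ∧ ∀ (S : D.L) p, π p ∈ (α S).1 ↔ p ∈ S.1 := by
  choose π hπ using D.ex_fun α
  have h1 : ∀ (S : D.L) p, π p ∈ (α S).1 ↔ p ∈ S.1 := fun S p => by
    rw [← D.pr_le, ← D.pr_le, ← hπ, α.le_iff_le]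
  refine ⟨π, fun p q h => D.pr_inj (α.injective (by rw [hπ, hπ, h])), fun q => ?_,
    fun p q => ?_, h1⟩
  · obtain ⟨p, hp⟩ := D.ex_fun α.symm q
    exact ⟨p, D.pr_inj (by rw [← hπ, ← hp]; simp)⟩
  · have := h1 (D.pr p) q
    rwa [hπ] at this

lemma closed_pre (π : J ≃ J) (h1 : ∀ p q, π q ∈ D.dn (π p) ↔ q ∈ D.dn p)
    (h2 : ∀ p, D.κ (π p) = D.κ p) (S : Set J) (hS : D.Closed S) : D.Closed (π ⁻¹' S) :=
  ⟨fun x hx y hy => hS.1 _ hx _ ((h1 x y).2 hy), fun x hx y hy h z h3 h4 =>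
    hS.2 _ hx _ hy (π.injective.ne h) _ (by rw [h2, h2, h3]) (by rw [h2, h2, h4])⟩

/-- the action on the lattice -/
def act {G : Type} [Group G] (ρ : G →* Equiv.Perm J)
    (h1 : ∀ g p q, ρ g q ∈ D.dn (ρ g p) ↔ q ∈ D.dn p) (h2 : ∀ g p, D.κ (ρ g p) = D.κ p) :
    G →* (D.L ≃o D.L) where
  toFun g :=
    { toFun := fun S => ⟨ρ g⁻¹ ⁻¹' S.1, D.closed_pre _ (h1 _) (h2 _) _ S.2⟩
      invFun := fun S => ⟨ρ g ⁻¹' S.1, D.closed_pre _ (h1 _) (h2 _) _ S.2⟩
      left_inv := fun S => Subtype.ext (by ext; simp)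
      right_inv := fun S => Subtype.ext (by ext; simp)
      map_rel_iff' := fun {S T} => (ρ g⁻¹).surjective.preimage_subset_preimage_iff }
  map_one' := by
    ext S
    exact Subtype.ext (by ext; simp)
  map_mul' g g' := by
    ext S
    exact Subtype.ext (by ext; simp [RelIso.mul_apply])

lemma iso {G : Type} [Group G] (ρ : G →* Equiv.Perm J) (hρ : Function.Injective ρ)
    (h1 : ∀ g p q, ρ g q ∈ D.dn (ρ g p) ↔ q ∈ D.dn p) (h2 : ∀ g p, D.κ (ρ g p) = D.κ p)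
    (h3 : ∀ π : J → J, Function.Injective π → Function.Surjective π →
      (∀ p q, π q ∈ D.dn (π p) ↔ q ∈ D.dn p) → ∃ g, ∀ p, π p = ρ g p) :
    Nonempty (G ≃* (D.L ≃o D.L)) := by
  have hm : ∀ g (S : D.L) p, ρ g p ∈ (D.act ρ h1 h2 g S).1 ↔ p ∈ S.1 := fun g S p => by
    simp [act]
  refine ⟨MulEquiv.ofBijective (D.act ρ h1 h2) ⟨fun g g' h => hρ (Equiv.ext fun p => ?_),
    fun α => ?_⟩⟩
  · have a := (hm g (D.pr p) p).2 (D.self p)
    have b := (hm g' (D.pr p) p).2 (D.self p)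
    rw [h] at a
    rw [← h] at b
    refine D.anti _ _ ?_ ?_
    · have : ρ g⁻¹ (ρ g' p) ∈ D.dn p := b
      simpa using (h1 g _ _).2 this
    · have : ρ g'⁻¹ (ρ g p) ∈ D.dn p := a
      simpa using (h1 g' _ _).2 this
  · obtain ⟨π, a, b, c, d⟩ := D.ex_perm α
    obtain ⟨g, hg⟩ := h3 π a b c
    refine ⟨g, ?_⟩
    ext S
    refine Subtype.ext (Set.ext fun q => ?_)
    obtain ⟨p, rfl⟩ := b q
    rw [d, hg, hm]

lemma emb [Finite J] : ∃ f : D.L ↪o (I × Bool → ℕ), ∀ S i, f S i ≤ Nat.card J := by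
  classical
  letI := Fintype.ofFinite J
  let e : J → ℕ := fun p => Fintype.equivFin J p
  have he : Function.Injective e := fun a b h => (Fintype.equivFin J).injective (Fin.ext h)
  have hl : ∀ p, e p < Fintype.card J := fun p => (Fintype.equivFin J p).2
  let F : D.L → I × Bool → ℕ := fun S i => (Finset.univ.filter (fun p => p ∈ S.1 ∧ D.κ p = i.1)).sup
    (fun p => if i.2 then e p + 1 else Fintype.card J - e p)
  refine ⟨OrderEmbedding.ofMapLEIff F (fun S T => ⟨fun h p hp => ?_, fun h i => ?_⟩),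
    fun S i => ?_⟩
  · by_contra hpT
    have a : e p + 1 ≤ F T (D.κ p, true) :=
      le_trans (Finset.le_sup (f := fun p => if true then e p + 1 else Fintype.card J - e p)
        (b := p) (by simp [hp])) (h (D.κ p, true))
    have b : Fintype.card J - e p ≤ F T (D.κ p, false) :=
      le_trans (Finset.le_sup (f := fun p => if false then e p + 1 else Fintype.card J - e p)
        (b := p) (by simp [hp])) (h (D.κ p, false))
    have := hl p
    obtain ⟨q, hq, a'⟩ := (Finset.le_sup_iff (by simp)).1 a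
    obtain ⟨q', hq', b'⟩ := (Finset.le_sup_iff (by simp; omega)).1 b
    simp only [Finset.mem_filter, Finset.mem_univ, true_and, if_true, Bool.false_eq_true,
      if_false] at hq hq' a' b'
    have n1 : e q ≠ e p := fun h => hpT (he h ▸ hq.1)
    have := hl q'
    exact hpT (T.2.2 q hq.1 q' hq'.1 (fun h => by rw [h] at a' n1; omega) p hq.2 hq'.2)
  · exact Finset.sup_mono (fun p hp => by
      simp only [Finset.mem_filter, Finset.mem_univ, true_and] at hp ⊢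
      exact ⟨h hp.1, hp.2⟩)
  · rw [Nat.card_eq_fintype_card]
    refine Finset.sup_le fun p _ => ?_
    have := hl p
    split_ifs <;> omega

lemma dim [Finite J] [Fintype I] :
    Order.krullDim D.L ≤ ((2 * Fintype.card I : ℕ) : WithBot ℕ∞) := by
  let r : D.L → ℕ := fun S => ∑ i, min {p ∈ S.1 | D.κ p = i}.ncard 2
  have hr : StrictMono r := by
    intro S T h
    have hs : ∀ i, {p ∈ S.1 | D.κ p = i} ⊆ {p ∈ T.1 | D.κ p = i} :=
      fun i p hp => ⟨h.le hp.1, hp.2⟩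
    obtain ⟨p, hp, hpS⟩ : ∃ p ∈ T.1, p ∉ S.1 := Set.not_subset.1 h.not_ge
    refine Finset.sum_lt_sum (fun i _ => min_le_min_right _ (Set.ncard_le_ncard (hs i)))
      ⟨D.κ p, Finset.mem_univ _, ?_⟩
    have a : {q ∈ S.1 | D.κ q = D.κ p}.ncard ≤ 1 := by
      rw [Set.ncard_le_one_iff]
      intro x y hx hy
      by_contra hxy
      exact hpS (S.2.2 x hx.1 y hy.1 hxy p hx.2 hy.2)
    have b := Set.ncard_lt_ncard (s := {q ∈ S.1 | D.κ q = D.κ p}) (t := {q ∈ T.1 | D.κ q = D.κ p})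
      ⟨hs _, fun h => hpS (h ⟨hp, rfl⟩).1⟩
    omega
  have hb : ∀ S, r S ≤ 2 * Fintype.card I := fun S => by
    have := Finset.sum_le_card_nsmul Finset.univ (fun i => min {p ∈ S.1 | D.κ p = i}.ncard 2) 2
      (fun i _ => min_le_right _ _)
    simpa [mul_comm] using this
  rw [Order.krullDim_eq_iSup_height]
  refine iSup_le fun S => ?_
  have := Order.height_le_height_apply_of_strictMono r hr S
  rw [Order.height_nat] at this
  have h2 : Order.height S ≤ ((2 * Fintype.card I : ℕ) : ℕ∞) :=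
    this.trans (by exact_mod_cast hb S)
  exact WithBot.coe_le_coe.2 h2

end Sys

end Pool.Agent.ModAut
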