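import Pool.Agent.H.MP_2de88f_co.A

set_option autoImplicit false

namespace Pool.Agent.ModAut

/-- the join-irreducibles -/
inductive J (Ω : Type) : Type
  | v : Ω → J Ω
  | w : Ω → J Ω
  | e1 : Ω → J Ω
  | e2 : Ω → J Ω
  | e3 : Ω → J Ω
  | a : J Ω
  | b : J Ω
  | c : J Ω

variable {Ω : Type}

/-- classes -/
def J.κ : J Ω → Fin 8
  | .v _ => 0 | .w _ => 1 | .e1 _ => 2 | .e2 _ => 3 | .e3 _ => 4 | .a => 5 | .b => 6 | .c => 7

/-- requirements -/
def J.dn (s t : Ω → Ω) : J Ω → Set (J Ω)
  | .v x => {.v x}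
  | .w x => {.w x, .c}
  | .e1 x => {.e1 x, .v x, .w x, .c}
  | .e2 x => {.e2 x, .v x, .w (s x), .c, .a}
  | .e3 x => {.e3 x, .v x, .w (t x), .c, .a, .b}
  | .a => {.a}
  | .b => {.b}
  | .c => {.c}

/-- ranks -/
def J.rk : J Ω → ℕ
  | .v _ => 1 | .w _ => 2 | .e1 _ => 4 | .e2 _ => 5 | .e3 _ => 6 | .a => 1 | .b => 1 | .c => 1

lemma J.ncard_dn (s t : Ω → Ω) (p : J Ω) : (J.dn s t p).ncard = p.rk := by
  cases p <;> simp [J.dn, J.rk, Set.ncard_insert_of_notMem]

/-- enumeration -/
def J.enum (q : Fin 8 × Ω) : J Ω :=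
  ![.v q.2, .w q.2, .e1 q.2, .e2 q.2, .e3 q.2, .a, .b, .c] q.1

lemma J.enum_surj (o : Ω) : Function.Surjective (J.enum (Ω := Ω)) := by
  rintro (x | x | x | x | x | _ | _ | _)
  exacts [⟨(0, x), rfl⟩, ⟨(1, x), rfl⟩, ⟨(2, x), rfl⟩, ⟨(3, x), rfl⟩, ⟨(4, x), rfl⟩,
    ⟨(5, o), rfl⟩, ⟨(6, o), rfl⟩, ⟨(7, o), rfl⟩]

/-- the system -/
def sys (s t : Ω → Ω) (hs : Function.Injective s) (ht : Function.Injective t) :
    Sys (J Ω) (Fin 8) where
  κ := J.κ
  dn := J.dn s t
  self x := by cases x <;> simp [J.dn]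
  trans x y z h1 h2 := by
    cases x <;> simp only [J.dn, Set.mem_insert_iff, Set.mem_singleton_iff] at h1 <;>
      rcases h1 with rfl | rfl | rfl | rfl | rfl | rfl <;>
      simp only [J.dn, Set.mem_insert_iff, Set.mem_singleton_iff] at h2 ⊢ <;> tauto
  one x y z h1 h2 h3 := by
    cases x <;> simp only [J.dn, Set.mem_insert_iff, Set.mem_singleton_iff] at h1 h2 <;>
      rcases h1 with rfl | rfl | rfl | rfl | rfl | rfl <;>
      rcases h2 with rfl | rfl | rfl | rfl | rfl | rfl <;>
      first | rfl | (simp [J.κ] at h3)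
  anti x y h1 h2 := by
    cases x <;> simp only [J.dn, Set.mem_insert_iff, Set.mem_singleton_iff] at h1 <;>
      rcases h1 with rfl | rfl | rfl | rfl | rfl | rfl <;>
      first | rfl | (simp [J.dn] at h2)
  par x x' z y h1 h2 h3 h4 := by
    cases z <;> cases x <;> simp only [J.κ, Fin.reduceEq] at h1 <;> cases x' <;>
      simp only [J.κ, Fin.reduceEq] at h2 <;>
      simp only [J.dn, Set.mem_insert_iff, Set.mem_singleton_iff] at h4 <;>
      rcases h4 with rfl | rfl | rfl | rfl | rfl | rfl <;>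
      simp_all [J.dn, J.κ, hs.eq_iff, ht.eq_iff]

/-- induced maps -/
def J.map (f : Ω → Ω) : J Ω → J Ω
  | .v x => .v (f x) | .w x => .w (f x) | .e1 x => .e1 (f x) | .e2 x => .e2 (f x)
  | .e3 x => .e3 (f x) | .a => .a | .b => .b | .c => .c

lemma rigid (s t : Ω → Ω) (o : Ω) (π : J Ω → J Ω) (h1 : Function.Injective π)
    (h2 : Function.Surjective π) (h : ∀ p q, π q ∈ J.dn s t (π p) ↔ q ∈ J.dn s t p) :
    ∃ γ : Ω → Ω, (∀ x, γ (s x) = s (γ x)) ∧ (∀ x, γ (t x) = t (γ x)) ∧ ∀ p, π p = J.map γ p := by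
  have rk : ∀ p, (π p).rk = p.rk := by
    intro p
    rw [← J.ncard_dn s t, ← J.ncard_dn s t, ← Set.ncard_image_of_injective (J.dn s t p) h1]
    congr 1
    ext q
    obtain ⟨q, rfl⟩ := h2 q
    rw [h, h1.mem_set_image]
  have hw : ∀ x, ∃ y, π (.w x) = .w y := fun x => by
    have := rk (.w x); revert this; cases π (.w x) <;> simp [J.rk]
  have he1 : ∀ x, ∃ y, π (.e1 x) = .e1 y := fun x => by
    have := rk (.e1 x); revert this; cases π (.e1 x) <;> simp [J.rk]
  have he2 : ∀ x, ∃ y, π (.e2 x) = .e2 y := fun x => by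
    have := rk (.e2 x); revert this; cases π (.e2 x) <;> simp [J.rk]
  have he3 : ∀ x, ∃ y, π (.e3 x) = .e3 y := fun x => by
    have := rk (.e3 x); revert this; cases π (.e3 x) <;> simp [J.rk]
  choose β hβ using hw
  choose γ hγ using he1
  choose γ2 hγ2 using he2
  choose γ3 hγ3 using he3
  have hc : π .c = .c := by
    have a := (h (.w o) .c).2 (by simp [J.dn])
    have b := rk .c
    rw [hβ] at a
    rcases a with a | a
    · rw [a] at b; simp [J.rk] at b
    · exact a
  have hv : ∀ x, π (.v x) = .v (γ x) := fun x => by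
    have a := (h (.e1 x) (.v x)).2 (by simp [J.dn])
    have b := rk (.v x)
    rw [hγ] at a
    rcases a with a | a | a | a
    · rw [a] at b; simp [J.rk] at b
    · exact a
    · rw [a] at b; simp [J.rk] at b
    · exact absurd (h1 (a.trans hc.symm)) (by simp)
  have e1 : ∀ x, β x = γ x := fun x => by
    have a := (h (.e1 x) (.w x)).2 (by simp [J.dn])
    rw [hγ, hβ] at a
    simpa [J.dn] using a
  have e2 : ∀ x, γ x = γ2 x := fun x => by
    have a := (h (.e2 x) (.v x)).2 (by simp [J.dn])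
    rw [hγ2, hv] at a
    simpa [J.dn] using a
  have e3 : ∀ x, γ x = γ3 x := fun x => by
    have a := (h (.e3 x) (.v x)).2 (by simp [J.dn])
    rw [hγ3, hv] at a
    simpa [J.dn] using a
  have ha : π .a = .a := by
    have a := (h (.e2 o) .a).2 (by simp [J.dn])
    have b := rk .a
    rw [hγ2, ← e2] at a
    rcases a with a | a | a | a | a
    · rw [a] at b; simp [J.rk] at b
    · exact absurd (h1 (a.trans (hv o).symm)) (by simp)
    · rw [a] at b; simp [J.rk] at b
    · exact absurd (h1 (a.trans hc.symm)) (by simp)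
    · exact a
  have hb : π .b = .b := by
    have a := (h (.e3 o) .b).2 (by simp [J.dn])
    have b := rk .b
    rw [hγ3, ← e3] at a
    rcases a with a | a | a | a | a | a
    · rw [a] at b; simp [J.rk] at b
    · exact absurd (h1 (a.trans (hv o).symm)) (by simp)
    · rw [a] at b; simp [J.rk] at b
    · exact absurd (h1 (a.trans hc.symm)) (by simp)
    · exact absurd (h1 (a.trans ha.symm)) (by simp)
    · exact a
  refine ⟨γ, fun x => ?_, fun x => ?_, fun p => ?_⟩
  · have a := (h (.e2 x) (.w (s x))).2 (by simp [J.dn])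
    rw [hγ2, hβ, e1, ← e2] at a
    simpa [J.dn] using a
  · have a := (h (.e3 x) (.w (t x))).2 (by simp [J.dn])
    rw [hγ3, hβ, e1, ← e3] at a
    simpa [J.dn] using a
  · cases p <;> simp only [J.map, hv, hβ, hγ, hγ2, hγ3, ha, hb, hc, e1, ← e2, ← e3]

theorem main (G : Type) [Group G] [Finite G] : ∃ (L : Type) (_ : Lattice L),
    IsModularLattice L ∧ Finite L ∧ Nonempty L ∧ Nonempty (G ≃* (L ≃o L)) ∧
    Order.krullDim L ≤ ((16 : ℕ) : WithBot ℕ∞) ∧
    ∃ f : L ↪o (Fin 16 → ℕ), ∀ S i, f S i ≤ 8 * Nat.card G ^ 2 := by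
  set n := Nat.card G with hn
  haveI : NeZero n := ⟨Nat.card_pos.ne'⟩
  obtain ⟨e⟩ : Nonempty (ZMod n ≃ G) := Finite.card_eq.1 (by simp [hn])
  let s : G × ZMod n → G × ZMod n := fun x => (x.1, x.2 + 1)
  let t : G × ZMod n → G × ZMod n := fun x => (x.1 * e x.2, x.2)
  have hs : Function.Injective s := fun x y h => by
    simp only [s, Prod.mk.injEq, add_left_inj] at h
    exact Prod.ext h.1 h.2
  have ht : Function.Injective t := fun x y h => by
    simp only [t, Prod.mk.injEq] at h
    obtain ⟨h1, h2⟩ := h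
    rw [h2] at h1
    exact Prod.ext (mul_right_cancel h1) h2
  let D := sys s t hs ht
  let o : G × ZMod n := (1, e.symm 1)
  haveI : Finite (J (G × ZMod n)) := Finite.of_surjective _ (J.enum_surj o)
  have cJ : Nat.card (J (G × ZMod n)) ≤ 8 * n ^ 2 := by
    have := Nat.card_le_card_of_surjective _ (J.enum_surj o)
    simpa [← hn, sq] using this
  let l : G → G × ZMod n → G × ZMod n := fun g x => (g * x.1, x.2)
  let ρ : G →* Equiv.Perm (J (G × ZMod n)) :=
    { toFun := fun g =>
        { toFun := J.map (l g)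
          invFun := J.map (l g⁻¹)
          left_inv := fun p => by cases p <;> simp [J.map, l]
          right_inv := fun p => by cases p <;> simp [J.map, l] }
      map_one' := by ext p; cases p <;> simp [J.map, l]
      map_mul' := fun g g' => by ext p; cases p <;> simp [J.map, l, mul_assoc] }
  have hρ : ∀ g p, ρ g p = J.map (l g) p := fun _ _ => rfl
  obtain ⟨f, hf⟩ := D.emb
  let e16 : Fin 16 ≃ Fin 8 × Bool := Fintype.equivOfCardEq (by simp)
  refine ⟨D.L, inferInstance, inferInstance, inferInstance, inferInstance,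
    D.iso ρ (fun g g' h => ?_) (fun g p q => ?_) (fun g p => ?_) (fun π h1 h2 h3 => ?_),
    by simpa using D.dim, OrderEmbedding.ofMapLEIff (fun S i => f S (e16 i)) (fun S T => ?_),
    fun S i => (hf S _).trans cJ⟩
  · have := congrArg (fun σ : Equiv.Perm _ => σ (J.v o)) h
    simpa [hρ, J.map, l, o] using this
  · cases p <;> cases q <;> simp [hρ, D, sys, J.map, J.dn, l, s, t, Prod.ext_iff, mul_assoc]
  · cases p <;> rfl
  · obtain ⟨γ, a, b, c⟩ := rigid s t o π h1 h2 h3
    have k : ∀ (m : ℕ) x, γ (x.1, x.2 + m) = ((γ x).1, (γ x).2 + m) := by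
      intro m
      induction m with
      | zero => simp
      | succ m ih =>
        intro x
        have := a (x.1, x.2 + m)
        simp only [s, ih] at this
        push_cast
        rw [← add_assoc, ← add_assoc, this]
    have k' : ∀ (m : ZMod n) g y, γ (g, y + m) = ((γ (g, y)).1, (γ (g, y)).2 + m) := by
      intro m g y
      simpa using k m.val (g, y)
    have o2 : (γ o).2 = e.symm 1 := by
      have := b o
      simp only [t, o, Equiv.apply_symm_apply, mul_one] at this
      have h4 := congrArg Prod.fst this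
      simp only [left_eq_mul] at h4
      rw [Equiv.eq_symm_apply]; exact h4
    have r1 : ∀ y, γ (1, y) = ((γ o).1, y) := by
      intro y
      have := k' (y - e.symm 1) 1 (e.symm 1)
      rw [add_sub_cancel] at this
      rw [this, o2, add_sub_cancel]
    refine ⟨(γ o).1, fun p => ?_⟩
    rw [c, hρ]
    congr 1
    funext ⟨g, y⟩
    have h5 := b (1, e.symm g)
    simp only [t, r1, Equiv.apply_symm_apply, one_mul] at h5
    have := k' (y - e.symm g) g (e.symm g)
    rw [add_sub_cancel, h5] at this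
    simpa [l] using this
  · rw [← f.le_iff_le]
    exact ⟨fun h i => by simpa using h (e16.symm i), fun h i => h _⟩

end Pool.Agent.ModAut
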